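import Pool.Agent.H610.HD.Stm

/-!
# Hard disks near close packing: from the volume to the number of rounded configurations
-/

set_option autoImplicit false

open MeasureTheory Set Filter

namespace Pool.Agent.H307.HD610

open Pool.Agent.H610.HD

/-- the box of configurations with rounded configuration `y` -/
def box (N : ℕ) (δ : ℝ) (y : Fin N → Fin 2 → ℤ) : Set (Fin N → Fin 2 → ℝ) :=
  Set.pi Set.univ fun i => Set.pi Set.univ fun k => Set.Ico (δ * y i k) (δ * (y i k + 1))

theorem volume_box (N : ℕ) (δ : ℝ) (hδ : 0 < δ) (y : Fin N → Fin 2 → ℤ) :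
    volume (box N δ y) = ENNReal.ofReal (δ ^ (2 * N)) := by
  unfold box
  rw [volume_pi_pi]
  have h1 : ∀ i : Fin N, volume (Set.pi Set.univ fun k : Fin 2 =>
      Set.Ico (δ * (y i k : ℝ)) (δ * ((y i k : ℝ) + 1))) = ENNReal.ofReal (δ ^ 2) := by
    intro i
    rw [volume_pi_pi]
    have h2 : ∀ k : Fin 2, volume (Set.Ico (δ * (y i k : ℝ)) (δ * ((y i k : ℝ) + 1))) =
        ENNReal.ofReal δ := by
      intro k
      rw [Real.volume_Ico]
      congr 1
      ring
    rw [Finset.prod_congr rfl fun k _ => h2 k]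
    rw [Finset.prod_const, Finset.card_univ, Fintype.card_fin, ENNReal.ofReal_pow hδ.le]
  rw [Finset.prod_congr rfl fun i _ => h1 i]
  rw [Finset.prod_const, Finset.card_univ, Fintype.card_fin, ← ENNReal.ofReal_pow (by positivity),
    ← pow_mul]

theorem mem_box (N : ℕ) (δ : ℝ) (hδ : 0 < δ) (x : Fin N → Fin 2 → ℝ) :
    x ∈ box N δ (fun i => rdv δ (x i)) := by
  unfold box
  intro i _ k _
  simp only [rdv, Set.mem_Ico]
  have h1 := Int.floor_le (x i k / δ)
  have h2 := Int.lt_floor_add_one (x i k / δ)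
  constructor
  · rw [le_div_iff₀ hδ] at h1
    linarith
  · rw [div_lt_iff₀ hδ] at h2
    linarith

theorem rdv_inj (N : ℕ) (δ : ℝ) (hδ : 0 < δ) (hδ1 : δ ≤ 1) (x : Fin N → Fin 2 → ℝ)
    (hx : ∀ i j, i ≠ j → 4 ≤ ∑ k, (x i k - x j k) ^ 2) :
    Function.Injective fun i => rdv δ (x i) := by
  intro i j hij
  by_contra hne
  have h4 := hx i j hne
  have hk : ∀ k : Fin 2, (x i k - x j k) ^ 2 ≤ 1 := by
    intro k
    have hf : ⌊x i k / δ⌋ = ⌊x j k / δ⌋ := congrFun hij k
    have h1 := Int.floor_le (x i k / δ)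
    have h2 := Int.lt_floor_add_one (x i k / δ)
    have h3 := Int.floor_le (x j k / δ)
    have h5 := Int.lt_floor_add_one (x j k / δ)
    rw [hf] at h1 h2
    rw [le_div_iff₀ hδ] at h1 h3
    rw [div_lt_iff₀ hδ] at h2 h5
    have ha : x i k - x j k ≤ 1 := by nlinarith
    have hb : -1 ≤ x i k - x j k := by nlinarith
    nlinarith
  have hs : ∑ k : Fin 2, (x i k - x j k) ^ 2 ≤ ∑ _k : Fin 2, (1 : ℝ) :=
    Finset.sum_le_sum fun k _ => hk k
  have : ∑ _k : Fin 2, (1 : ℝ) = 2 := by simp
  linarith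

/-- an injective family is a permutation of any family with the same image -/
theorem exists_perm {N : ℕ} {β : Type} [DecidableEq β] (y z : Fin N → β)
    (hy : Function.Injective y)
    (h : Finset.univ.image y = Finset.univ.image z) :
    ∃ σ : Equiv.Perm (Fin N), ∀ i, y i = z (σ i) := by
  have h1 : ∀ i, ∃ j, z j = y i := by
    intro i
    have : y i ∈ Finset.univ.image z := by
      rw [← h]
      exact Finset.mem_image_of_mem _ (Finset.mem_univ _)
    obtain ⟨j, _, hj⟩ := Finset.mem_image.1 this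
    exact ⟨j, hj⟩
  choose f hf using h1
  have hinj : Function.Injective f := by
    intro a b hab
    apply hy
    rw [← hf a, ← hf b, hab]
  refine ⟨Equiv.ofBijective f (Finite.injective_iff_bijective.1 hinj), fun i => ?_⟩
  simp only [Equiv.ofBijective_apply]
  exact (hf i).symm

theorem vol : S_vol := by
  intro N δ X B hδ hδ1 hX hfin hB
  set I : Set (Finset (Fin 2 → ℤ)) :=
    {S | ∃ x ∈ X, S = Finset.univ.image fun i => rdv δ (x i)} with hI
  have hrep : ∀ S : Finset (Fin 2 → ℤ), ∃ z : Fin N → Fin 2 → ℝ, S ∈ I →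
      z ∈ X ∧ S = Finset.univ.image fun i => rdv δ (z i) := by
    intro S
    by_cases hS : S ∈ I
    · obtain ⟨x, hx, hxS⟩ := hS
      exact ⟨x, fun _ => ⟨hx, hxS⟩⟩
    · exact ⟨fun _ _ => 0, fun h => absurd h hS⟩
  choose z hz using hrep
  have hcov : X ⊆ ⋃ p ∈ hfin.toFinset ×ˢ (Finset.univ : Finset (Equiv.Perm (Fin N))),
      box N δ (fun i => rdv δ (z p.1 (p.2 i))) := by
    intro x hx
    have hS : (Finset.univ.image fun i => rdv δ (x i)) ∈ I := ⟨x, hx, rfl⟩
    obtain ⟨_, hzS⟩ := hz _ hS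
    obtain ⟨σ, hσ⟩ := exists_perm (fun i => rdv δ (x i))
      (fun i => rdv δ (z (Finset.univ.image fun i => rdv δ (x i)) i))
      (rdv_inj N δ hδ hδ1 x (hX x hx)) hzS
    rw [Set.mem_iUnion₂]
    refine ⟨(Finset.univ.image fun i => rdv δ (x i), σ), ?_, ?_⟩
    · simp only [Finset.mem_product, Set.Finite.mem_toFinset, Finset.mem_univ, and_true]
      exact hS
    · have : (fun i => rdv δ (z (Finset.univ.image fun i => rdv δ (x i)) (σ i))) =
          fun i => rdv δ (x i) := by
        funext i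
        exact (hσ i).symm
      simp only [this]
      exact mem_box N δ hδ x
  calc volume X ≤ volume (⋃ p ∈ hfin.toFinset ×ˢ (Finset.univ : Finset (Equiv.Perm (Fin N))),
      box N δ (fun i => rdv δ (z p.1 (p.2 i)))) := measure_mono hcov
    _ ≤ ∑ p ∈ hfin.toFinset ×ˢ (Finset.univ : Finset (Equiv.Perm (Fin N))),
      volume (box N δ (fun i => rdv δ (z p.1 (p.2 i)))) := measure_biUnion_finset_le _ _
    _ = ∑ _p ∈ hfin.toFinset ×ˢ (Finset.univ : Finset (Equiv.Perm (Fin N))),
      ENNReal.ofReal (δ ^ (2 * N)) := Finset.sum_congr rfl fun p _ => volume_box N δ hδ _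
    _ = ((hfin.toFinset.card * N.factorial : ℕ) : ENNReal) * ENNReal.ofReal (δ ^ (2 * N)) := by
      rw [Finset.sum_const, Finset.card_product, Finset.card_univ, Fintype.card_perm,
        Fintype.card_fin, nsmul_eq_mul]
    _ ≤ ((B * N.factorial : ℕ) : ENNReal) * ENNReal.ofReal (δ ^ (2 * N)) := by
      gcongr
      rw [← Set.ncard_eq_toFinset_card I hfin]
      exact hB
    _ = ENNReal.ofReal ((N.factorial : ℝ) * B * δ ^ (2 * N)) := by
      rw [← ENNReal.ofReal_natCast, ← ENNReal.ofReal_mul (by positivity)]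
      congr 1
      push_cast
      ring

end Pool.Agent.H307.HD610
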